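import Pool.Agent.N212.FQ.F

/-!
# Fujita's freeness conjecture for étale quotients by arbitrary finite groups of projective
transformations

`Y ⊂ P^N` is given by a homogeneous ideal `I`, and a finite group `G` acts linearly on `ℂ^(N+1)`,
preserving `I`; the group `G/S`, `S` the subgroup of the elements acting by scalars, acts freely on
`Y`. Every finite group of projective transformations of `P^N` is such a `G/S`. Let `n = dim Y` and
`ω_Y = O(κ)`. The line bundles on `X = Y/G` whose pullback to `Y` is `O(k)` are given by the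
characters of `G` which are `c ^ k` on the elements acting by the scalar `c`. If `A` is such a line
bundle, `k ≥ 1`, then the sections of `K_X + mA` are the forms of degree `e = κ + mk` on the cone
over `Y` on which `G` acts by a certain character `χ`, which is `c ^ e` on the elements acting by
the scalar `c`. Let `m ≥ n + 1`. These sections have no common zero on `Y` in the following cases:
`Y` is a complete intersection (or `I` is generated by forms of degree at most `e + 1`) and `G/S`
has at most `2e + 1` elements; `Y` is arbitrary and `G/S` has at most `e + 1` elements; `Y` is a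
hypersurface of positive dimension and `κ ≤ n`, or `k ≤ 2`, or `O(1)` is the pullback of a line
bundle on `X`.
-/

set_option autoImplicit false

namespace Pool.Agent.Results.MP_9ff3e7_ag.FreenessFiniteQuotients

open MvPolynomial

/-- A homogeneous ideal `I` in `ℂ[x_0, …, x_N]` and a linear action `ρ` of `G` on `ℂ^(N+1)`. The
ideal `I` is stable under `G`, and an element which fixes a line in the zero set of `I` acts by a
scalar. -/
structure ProjectiveCover (G : Type) [Group G] (N : ℕ) where
  I : Ideal (MvPolynomial (Fin (N + 1)) ℂ)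
  homogeneous : ∀ p ∈ I, ∀ t, homogeneousComponent t p ∈ I
  ρ : Representation ℂ G (Fin (N + 1) → ℂ)
  stable : ∀ (g : G), ∀ p ∈ I, bind₁ (fun i => ∑ j, C (ρ g (Pi.single j 1) i) * X j) p ∈ I
  free : ∀ v : Fin (N + 1) → ℂ, v ≠ 0 → (∀ p ∈ I, eval v p = 0) → ∀ (g : G) (μ : ℂ),
    ρ g v = μ • v → ∃ c : ℂ, ∀ x, ρ g x = c • x

/-- `I` is generated by `c = N - n` forms of degrees `d j ≥ 1`, and `κ = ∑ d j - (N + 1)`. -/
def CompleteIntersection {N : ℕ} (I : Ideal (MvPolynomial (Fin (N + 1)) ℂ)) (n : ℕ) (κ : ℤ) :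
    Prop :=
  ∃ (c : ℕ) (f : Fin c → MvPolynomial (Fin (N + 1)) ℂ) (d : Fin c → ℕ),
    (∀ j, (f j).IsHomogeneous (d j) ∧ 0 < d j) ∧ I = Ideal.span (Set.range f) ∧
    N = n + c ∧ κ = ∑ j, (d j : ℤ) - (N + 1)

/-- `I` is generated by forms of degree at most `b`. -/
def GeneratedInDegreesLE {N : ℕ} (I : Ideal (MvPolynomial (Fin (N + 1)) ℂ)) (b : ℕ) : Prop :=
  I = Ideal.span {p | p ∈ I ∧ ∃ t ≤ b, p.IsHomogeneous t}

/-- The forms of degree `e` on which `G` acts by the character `χ`: the sections of the line bundle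
on `X = Y/G` given by `e` and `χ`. -/
def Section {G : Type} [Group G] {N : ℕ} (D : ProjectiveCover G N) (e : ℕ) (χ : G →* ℂˣ)
    (F : MvPolynomial (Fin (N + 1)) ℂ) : Prop :=
  F.IsHomogeneous e ∧
    ∀ (g : G) (x : Fin (N + 1) → ℂ), eval (D.ρ g x) F = χ g * eval x F

/-- The line bundle `O(k)` on `Y` is the pullback of a line bundle on `X = Y/G`. -/
def Descends {G : Type} [Group G] {N : ℕ} (D : ProjectiveCover G N) (k : ℕ) : Prop :=
  ∃ θ : G →* ℂˣ, ∀ (g : G) (c : ℂ), (∀ x, D.ρ g x = c • x) → (θ g : ℂ) = c ^ k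

/-- the order of `G` modulo the scalars is at most `b` -/
def OrderLE {G : Type} [Group G] {N : ℕ} (D : ProjectiveCover G N) (b : ℕ) : Prop :=
  Nat.card G ≤ b * Nat.card {g : G // ∃ c : ℂ, ∀ x, D.ρ g x = c • x}

theorem result {G : Type} [Group G] [Finite G] {N : ℕ} (D : ProjectiveCover G N) (n : ℕ) (κ : ℤ)
    (k m e : ℕ) (hk : 1 ≤ k) (hm : n + 1 ≤ m) (he : (e : ℤ) = κ + m * k)
    (h : -- complete intersections
      (CompleteIntersection D.I n κ ∨ GeneratedInDegreesLE D.I (e + 1)) ∧ OrderLE D (2 * e + 1) ∨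
      -- arbitrary projective varieties
      OrderLE D (e + 1) ∨
      -- hypersurfaces, no condition on the order
      CompleteIntersection D.I n κ ∧ 1 ≤ n ∧ N = n + 1 ∧
        (Descends D 1 ∨ Descends D k ∧ (κ ≤ n ∨ k ≤ 2)))
    (χ : G →* ℂˣ) (hχ : ∀ (g : G) (c : ℂ), (∀ x, D.ρ g x = c • x) → (χ g : ℂ) = c ^ e)
    (y : Fin (N + 1) → ℂ) (hy0 : y ≠ 0) (hy : ∀ p ∈ D.I, eval y p = 0) :
    ∃ F, Section D e χ F ∧ eval y F ≠ 0 := by
  have hmk : (n : ℤ) + 1 ≤ m * k := by
    have h1 : n + 1 ≤ m * k := hm.trans (Nat.le_mul_of_pos_right m hk)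
    exact_mod_cast h1
  -- the first case
  have main : (CompleteIntersection D.I n κ ∨ GeneratedInDegreesLE D.I (e + 1)) →
      (Pool.Agent.N212.FQ.scalars D.ρ).index ≤ 2 * e + 1 → ∃ F, Section D e χ F ∧ eval y F ≠ 0 := by
    intro hY hr
    have hgen : ∃ (J : Type) (f : J → MvPolynomial (Fin (N + 1)) ℂ) (d : J → ℕ),
        (∀ j, (f j).IsHomogeneous (d j)) ∧ (∀ j, d j ≤ e + 1) ∧
        D.I = Ideal.span (Set.range f) := by
      rcases hY with ⟨c, f, d, hfd, hI, hN, hκ⟩ | h
      · refine ⟨Fin c, f, d, fun j => (hfd j).1, fun j => ?_, hI⟩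
        have h1 : ∑ i, ((d i : ℤ) - 1) = ∑ i, (d i : ℤ) - c := by
          rw [Finset.sum_sub_distrib]
          simp
        have h2 : (d j : ℤ) - 1 ≤ ∑ i, ((d i : ℤ) - 1) :=
          Finset.single_le_sum (f := fun i => (d i : ℤ) - 1) (fun i _ => by
            have := (hfd i).2
            omega) (Finset.mem_univ j)
        have h3 : (N : ℤ) = n + c := by exact_mod_cast hN
        have h4 : (d j : ℤ) ≤ e + 1 := by
          rw [he, hκ, h3]
          linarith
        exact_mod_cast h4
      · choose t ht1 ht2 using fun p : {p | p ∈ D.I ∧ ∃ t ≤ e + 1, p.IsHomogeneous t} => p.2.2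
        refine ⟨_, Subtype.val, t, ht2, ht1, ?_⟩
        rw [Subtype.range_val]
        exact h
    obtain ⟨J, f, d, hf, hd, hI⟩ := hgen
    have hS := Pool.Agent.N212.FQ.free_of_ideal hf hI D.stable D.free
    exact Pool.Agent.N212.FQ.freeness2 hS hr hd χ hχ hy0
      ((Pool.Agent.N212.FQ.zero_iff hI y).2 hy)
  rcases h with ⟨hY, hG⟩ | hG | ⟨hCI, hn, hNn, hD⟩
  · exact main hY (Pool.Agent.N212.FQ.index_le hG)
  · -- arbitrary `Y`
    choose t ht using fun p : {p | p ∈ D.I ∧ ∃ t, p.IsHomogeneous t} => p.2.2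
    have hI : D.I = Ideal.span (Set.range
        (Subtype.val : {p | p ∈ D.I ∧ ∃ t, p.IsHomogeneous t} → _)) := by
      rw [Subtype.range_val]
      refine le_antisymm (fun p hp => ?_) (Ideal.span_le.2 fun p hp => hp.1)
      rw [← sum_homogeneousComponent p]
      exact Ideal.sum_mem _ fun i _ => Ideal.subset_span
        ⟨D.homogeneous p hp i, i, homogeneousComponent_isHomogeneous i p⟩
    have hS := Pool.Agent.N212.FQ.free_of_ideal ht hI D.stable D.free
    exact Pool.Agent.N212.FQ.freeness hS (Pool.Agent.N212.FQ.index_le hG) χ hχ hy0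
      ((Pool.Agent.N212.FQ.zero_iff hI y).2 hy)
  · refine main (Or.inl hCI) ?_
    obtain ⟨c, f, d, hfd, hI, hN, hκ⟩ := hCI
    obtain rfl : c = 1 := by omega
    have h1 : Set.range f = {f 0} := by
      ext x
      simp [eq_comm]
    rw [h1] at hI
    have h2 : ∀ l : ℕ, 1 ≤ l → Descends D l →
        (Pool.Agent.N212.FQ.scalars D.ρ).index ≤ l * d 0 := by
      rintro l hl ⟨θ, hθ⟩
      exact Pool.Agent.N212.FQ.index_hypersurface (ρ := D.ρ) (by omega) (hfd 0).2 hl (hfd 0).1
        (by
          rw [← hI]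
          exact D.stable) (by
          rw [← hI]
          exact D.free) θ hθ
    have hκ' : κ = d 0 - (n + 2) := by
      rw [hκ, Fin.sum_univ_one, hNn]
      push_cast
      ring
    have hd0 : (1 : ℤ) ≤ d 0 := by
      have := (hfd 0).2
      omega
    rcases hD with hD | ⟨hD, hD'⟩
    · refine (h2 1 le_rfl hD).trans ?_
      have h3 : (d 0 : ℤ) ≤ e + 1 := by
        rw [he, hκ']
        linarith
      have h4 : d 0 ≤ e + 1 := by exact_mod_cast h3
      omega
    · refine (h2 k hk hD).trans ?_
      have h3 : ((n : ℤ) + 1) * k ≤ m * k := by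
        have h5 : (n + 1) * k ≤ m * k := Nat.mul_le_mul_right k hm
        exact_mod_cast h5
      have h4 : (k : ℤ) * d 0 ≤ 2 * e + 1 := by
        rw [he, hκ']
        rcases hD' with h6 | h6
        · have h7 : (0 : ℤ) ≤ (2 * n + 2 - d 0) * (k - 1) := by
            refine mul_nonneg (by linarith) ?_
            have : (1 : ℤ) ≤ k := by exact_mod_cast hk
            linarith
          nlinarith
        · interval_cases k
          · push_cast at h3 ⊢
            linarith
          · push_cast at h3 ⊢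
            linarith
      exact_mod_cast h4

end Pool.Agent.Results.MP_9ff3e7_ag.FreenessFiniteQuotients
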